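import Mathlib

namespace Pool.Agent.Results.MP_1ee7a3_al.DihedralTimesC4

/-- `A` is propermutable in the ambient group `G`: some subgroup `T` satisfies
`G = N_G(A) T`, and `A K = K A` for every subgroup `K ≤ T`. -/
def Propermutable {G : Type} [Group G] (A : Subgroup G) : Prop :=
  ∃ T : Subgroup G,
    (∀ g : G, ∃ n ∈ Subgroup.normalizer (A : Set G), ∃ t ∈ T, n * t = g) ∧
    ∀ K : Subgroup G, K ≤ T →
      {x : G | ∃ a ∈ A, ∃ k ∈ K, a * k = x} = {x : G | ∃ k ∈ K, ∃ a ∈ A, k * a = x}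

/-- the group `D × C` of order 32, `D` dihedral of order 8, `C` cyclic of order 4 -/
abbrev Gp : Type := DihedralGroup 4 × Multiplicative (ZMod 4)

/-- the reflection `a` -/
def a : Gp := (DihedralGroup.sr 0, 1)

/-- the rotation `t` -/
def t : Gp := (DihedralGroup.r 1, 1)

/-- the diagonal element `b` -/
def b : Gp := (DihedralGroup.r 1, Multiplicative.ofAdd 1)

/-- parity of an element -/
def par : Gp → Bool
  | (DihedralGroup.r i, j) => (i + Multiplicative.toAdd j).val % 2 == 0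
  | (DihedralGroup.sr i, j) => (i + Multiplicative.toAdd j).val % 2 == 0

theorem par_mul : ∀ x y : Gp, par x = true → par y = true → par (x * y) = true := by
  decide +kernel

theorem par_inv : ∀ x : Gp, par x = true → par x⁻¹ = true := by
  decide +kernel

/-- the subgroup `B` of order 16 -/
def B : Subgroup Gp where
  carrier := {x | par x = true}
  mul_mem' := fun {x y} hx hy => par_mul x y hx hy
  one_mem' := by show par 1 = true; decide
  inv_mem' := fun {x} hx => par_inv x hx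

/-- the subgroup `A` of order 2 -/
def A : Subgroup Gp := Subgroup.zpowers a

theorem a_sq : a ^ 2 = 1 := by decide

theorem mem_A {x : Gp} : x ∈ A ↔ x = 1 ∨ x = a := by
  constructor
  · rintro ⟨k, rfl⟩
    rcases Int.even_or_odd' k with ⟨m, rfl | rfl⟩
    · left
      show a ^ (2 * m) = 1
      rw [zpow_mul]
      have : a ^ (2 : ℤ) = 1 := by exact_mod_cast a_sq
      rw [this, one_zpow]
    · right
      show a ^ (2 * m + 1) = a
      rw [zpow_add, zpow_mul, zpow_one]
      have : a ^ (2 : ℤ) = 1 := by exact_mod_cast a_sq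
      rw [this, one_zpow, one_mul]
  · rintro (rfl | rfl)
    · exact one_mem _
    · exact Subgroup.mem_zpowers a

theorem a_mem_B : a ∈ B := by show par a = true; decide

theorem b_mem_B : b ∈ B := by show par b = true; decide

theorem A_le_B : A ≤ B := by
  intro x hx
  rcases mem_A.1 hx with rfl | rfl
  · exact one_mem _
  · exact a_mem_B

theorem pow4 : ∀ x : Gp, x ^ 4 = 1 := by decide +kernel

theorem zpow_cases (x : Gp) (j : ℤ) : ∃ i : Fin 4, x ^ j = x ^ (i : ℕ) := by
  refine ⟨⟨(j % 4).toNat, by omega⟩, ?_⟩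
  show x ^ j = x ^ ((j % 4).toNat)
  have h1 : ((j % 4).toNat : ℤ) = j % 4 := by omega
  rw [← zpow_natCast, h1]
  conv_lhs => rw [← Int.emod_add_mul_ediv j 4]
  rw [zpow_add, zpow_mul]
  have : x ^ (4 : ℤ) = 1 := by exact_mod_cast pow4 x
  rw [this, one_zpow, mul_one]

theorem at_comm : ∀ i : Fin 4, a * t ^ (i : ℕ) = (t ^ (i : ℕ))⁻¹ * a := by decide +kernel

theorem at_comm' : ∀ i : Fin 4, t ^ (i : ℕ) * a = a * (t ^ (i : ℕ))⁻¹ := by decide +kernel

theorem inT {k : Gp} (hk : k ∈ Subgroup.zpowers t) : ∃ i : Fin 4, k = t ^ (i : ℕ) := by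
  rcases hk with ⟨j, rfl⟩
  exact zpow_cases t j

theorem fact : ∀ g : Gp, a * g * a⁻¹ = g ∨ a * (g * t⁻¹) * a⁻¹ = g * t⁻¹ := by
  decide +kernel

theorem norm_of_comm {n : Gp} (h : a * n * a⁻¹ = n) :
    n ∈ Subgroup.normalizer (A : Set Gp) := by
  have hna : n * a * n⁻¹ = a := by
    have h2 : a * n = n * a := by
      calc a * n = (a * n * a⁻¹) * a := by group
        _ = n * a := by rw [h]
    rw [← h2]; group
  rw [Subgroup.mem_normalizer_iff]
  intro x
  show x ∈ A ↔ n * x * n⁻¹ ∈ A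
  rw [mem_A, mem_A]
  constructor
  · rintro (rfl | rfl)
    · left; group
    · right; exact hna
  · rintro (hx | hx)
    · left
      have : x = n⁻¹ * (n * x * n⁻¹) * n := by group
      rw [this, hx]; group
    · right
      have h3 : n⁻¹ * a * n = a := by
        calc n⁻¹ * a * n = n⁻¹ * (n * a * n⁻¹) * n := by rw [hna]
          _ = a := by group
      have : x = n⁻¹ * (n * x * n⁻¹) * n := by group
      rw [this, hx, h3]

theorem prop_G : Propermutable A := by
  refine ⟨Subgroup.zpowers t, ?_, ?_⟩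
  · intro g
    rcases fact g with h | h
    · exact ⟨g, norm_of_comm h, 1, one_mem _, mul_one g⟩
    · exact ⟨g * t⁻¹, norm_of_comm h, t, Subgroup.mem_zpowers t, by group⟩
  · intro K hK
    ext x
    constructor
    · rintro ⟨c, hc, k, hk, rfl⟩
      rcases mem_A.1 hc with rfl | rfl
      · exact ⟨k, hk, 1, one_mem _, by group⟩
      · obtain ⟨i, hi⟩ := inT (hK hk)
        refine ⟨k⁻¹, inv_mem hk, a, mem_A.2 (Or.inr rfl), ?_⟩
        rw [hi, at_comm]
    · rintro ⟨k, hk, c, hc, rfl⟩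
      rcases mem_A.1 hc with rfl | rfl
      · exact ⟨1, one_mem _, k, hk, by group⟩
      · obtain ⟨i, hi⟩ := inT (hK hk)
        refine ⟨a, mem_A.2 (Or.inr rfl), k⁻¹, inv_mem hk, ?_⟩
        rw [hi, at_comm']

theorem fact2 : ∀ n : Gp, par n = true → n * a * n⁻¹ = a →
    ∀ i : Fin 4, a * (n⁻¹ * b) ≠ (n⁻¹ * b) ^ (i : ℕ) ∧
      a * (n⁻¹ * b) ≠ (n⁻¹ * b) ^ (i : ℕ) * a := by
  decide +kernel

theorem a_ne_one : a ≠ 1 := by decide

theorem not_prop_B : ¬ Propermutable (A.subgroupOf B) := by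
  rintro ⟨T, hT, hperm⟩
  obtain ⟨n, hn, c, hc, hnc⟩ := hT ⟨b, b_mem_B⟩
  have hc' : c = n⁻¹ * ⟨b, b_mem_B⟩ := by rw [← hnc]; group
  have hcval : (c : Gp) = (n : Gp)⁻¹ * b := by rw [hc']; rfl
  have hna : (n : Gp) * a * (n : Gp)⁻¹ = a := by
    rw [Subgroup.mem_normalizer_iff] at hn
    have h1 := (hn ⟨a, a_mem_B⟩).1 (by
      show (⟨a, a_mem_B⟩ : B) ∈ A.subgroupOf B
      rw [Subgroup.mem_subgroupOf]
      exact mem_A.2 (Or.inr rfl))
    have h2 : (n : Gp) * a * (n : Gp)⁻¹ ∈ A := h1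
    rcases mem_A.1 h2 with h3 | h3
    · exfalso
      apply a_ne_one
      have : a = (n : Gp)⁻¹ * ((n : Gp) * a * (n : Gp)⁻¹) * n := by group
      rw [this, h3]; group
    · exact h3
  have hK := hperm (Subgroup.zpowers c) (by
    rw [Subgroup.zpowers_le]; exact hc)
  have hmem : (⟨a, a_mem_B⟩ : B) * c ∈
      {x : B | ∃ u ∈ A.subgroupOf B, ∃ k ∈ Subgroup.zpowers c, u * k = x} := by
    refine ⟨⟨a, a_mem_B⟩, ?_, c, Subgroup.mem_zpowers c, rfl⟩
    rw [Subgroup.mem_subgroupOf]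
    exact mem_A.2 (Or.inr rfl)
  rw [hK] at hmem
  obtain ⟨k, hk, u, hu, huk⟩ := hmem
  rw [Subgroup.mem_subgroupOf] at hu
  obtain ⟨j, hj⟩ := hk
  have hkval : (k : Gp) = (c : Gp) ^ j := by rw [← hj]; rfl
  obtain ⟨i, hi⟩ := zpow_cases (c : Gp) j
  have hval : (k : Gp) * (u : Gp) = a * (c : Gp) := congrArg Subtype.val huk
  have hf := fact2 (n : Gp) n.2 hna i
  rw [hcval] at hval hi hkval
  rw [hkval, hi] at hval
  rcases mem_A.1 hu with hu1 | hu1
  · rw [hu1, mul_one] at hval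
    exact hf.1 hval.symm
  · rw [hu1] at hval
    exact hf.2 hval.symm

/-- There are a finite group `G` and subgroups `A ≤ B ≤ G` with `A` propermutable in `G`
and `A` not propermutable in `B`. -/
theorem result : ∃ (G : Type) (_ : Group G) (_ : Finite G) (A B : Subgroup G),
    A ≤ B ∧ Propermutable A ∧ ¬ Propermutable (A.subgroupOf B) :=
  ⟨Gp, inferInstance, inferInstance, A, B, A_le_B, prop_G, not_prop_B⟩

end Pool.Agent.Results.MP_1ee7a3_al.DihedralTimesC4
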